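import Pool.Agent.H595.ED.ED9

/-!
# The strengthening Q2 fails for every even degree at least four

For every even `n ≥ 4` there is a transcendental real number `ζ` such that for every constant `c` only finitely
many real algebraic numbers `α` of degree exactly `n` satisfy `|ζ - α| ≤ c H(α) ^ (-n-1)`.
-/

set_option autoImplicit false

namespace Pool.Agent.Results.MP_06f5ad_nt.StrengtheningFails

open Polynomial

/-- the naive height of an integer polynomial: the largest absolute value of its coefficients -/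
noncomputable def height (Q : ℤ[X]) : ℕ := Q.support.sup fun i => (Q.coeff i).natAbs

/-- `Q` is the minimal polynomial of `α` over the integers: it is irreducible in `ℤ[X]`, its leading coefficient
is positive and it vanishes at `α` -/
def IsMinPoly (Q : ℤ[X]) (α : ℝ) : Prop := Irreducible Q ∧ 0 < Q.leadingCoeff ∧ aeval α Q = 0

/-- the real algebraic numbers `α` of degree exactly `n` with `|ζ - α| ≤ c H(α) ^ (-n-1)` -/
def approximations (n : ℕ) (ζ c : ℝ) : Set ℝ :=
  {α | ∃ Q : ℤ[X], IsMinPoly Q α ∧ Q.natDegree = n ∧ |ζ - α| ≤ c / (height Q : ℝ) ^ (n + 1)}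

/-- the strengthening Q2 fails for every even degree at least four -/
theorem result : ∀ n : ℕ, 4 ≤ n → Even n →
    ∃ ζ : ℝ, Transcendental ℚ ζ ∧ ∀ c : ℝ, (approximations n ζ c).Finite := by
  rintro n hn ⟨s, hs⟩
  obtain ⟨ζ, hζ, h⟩ := Pool.Agent.H595.ED.main (n := n) (s := s) (by omega) (by omega)
  refine ⟨ζ, fun h0 => hζ ((IsFractionRing.isAlgebraic_iff ℤ ℚ ℝ).2 h0), fun c => ?_⟩
  obtain ⟨Y₀, hY₀⟩ := h c
  have hfin := (Pool.Agent.H595.ED.finite_pol n Y₀).biUnion (t := fun Q => Q.rootSet ℝ)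
    (fun Q _ => rootSet_finite Q ℝ)
  refine hfin.subset ?_
  rintro α ⟨Q, ⟨hQ, -, hα⟩, hd, hle⟩
  rw [Set.mem_iUnion₂]
  refine ⟨Q, ⟨hd, ?_⟩, (mem_rootSet).2 ⟨hQ.ne_zero, hα⟩⟩
  by_contra hcon
  push Not at hcon
  have h1 := hY₀ Q hQ hd hcon.le α hα
  exact absurd hle (not_le.2 h1)

end Pool.Agent.Results.MP_06f5ad_nt.StrengtheningFails
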